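import Pool.Agent.Q234.KG.Stm

/-!
# Project KG (helper234), JOB UN: on site unitaries
-/

set_option autoImplicit false

namespace Pool.Agent.Q150.KG.UN

open scoped BigOperators
open Finset Pool.Agent.TH235.PP Pool.Agent.Q234.KG

theorem tp_mul {V : Type} [Fintype V] [DecidableEq V] {d : ℕ} (a b : V → Matrix (Fin d) (Fin d) ℂ) :
    tp a * tp b = tp (fun v => a v * b v) := by
  ext s t
  rw [Matrix.mul_apply]
  show ∑ j : V → Fin d, (∏ v, a v (s v) (j v)) * (∏ v, b v (j v) (t v)) =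
    ∏ v, (a v * b v) (s v) (t v)
  have h1 : ∏ v, (a v * b v) (s v) (t v) = ∏ v, ∑ j : Fin d, a v (s v) j * b v j (t v) :=
    Finset.prod_congr rfl (fun v _ => Matrix.mul_apply)
  rw [h1, Finset.prod_univ_sum, Fintype.piFinset_univ]
  exact Finset.sum_congr rfl (fun j _ => Finset.prod_mul_distrib.symm)

theorem tp_one {V : Type} [Fintype V] [DecidableEq V] {d : ℕ} :
    tp (fun _ : V => (1 : Matrix (Fin d) (Fin d) ℂ)) = 1 := by
  ext s t
  rw [Matrix.one_apply]
  show ∏ v, (1 : Matrix (Fin d) (Fin d) ℂ) (s v) (t v) = _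
  by_cases h : s = t
  · subst h
    rw [if_pos rfl]
    exact Finset.prod_eq_one (fun v _ => Matrix.one_apply_eq _)
  · rw [if_neg h]
    obtain ⟨v, hv⟩ : ∃ v, s v ≠ t v := by
      by_contra hc
      push Not at hc
      exact h (funext hc)
    exact Finset.prod_eq_zero (mem_univ v) (Matrix.one_apply_ne hv)

theorem tpw_tp {V : Type} [Fintype V] {d : ℕ} (W : Matrix (Fin d) (Fin d) ℂ) :
    (tpw W : Matrix (V → Fin d) (V → Fin d) ℂ) = tp (fun _ : V => W) := rfl

theorem sh_inj {n L : ℕ} [NeZero L] (hn : n ≤ L) (u : Site L) :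
    Function.Injective (sh u : Fin n × Fin n → Site L) := by
  have key : ∀ i j : Fin n, ((i : ℕ) : ZMod L) = ((j : ℕ) : ZMod L) → i = j := by
    intro i j h
    rw [ZMod.natCast_eq_natCast_iff', Nat.mod_eq_of_lt (lt_of_lt_of_le i.2 hn),
      Nat.mod_eq_of_lt (lt_of_lt_of_le j.2 hn)] at h
    exact Fin.ext h
  intro x y h
  have h1 : u.1 + ((x.1 : ℕ) : ZMod L) = u.1 + ((y.1 : ℕ) : ZMod L) := congrArg Prod.fst h
  have h2 : u.2 + ((x.2 : ℕ) : ZMod L) = u.2 + ((y.2 : ℕ) : ZMod L) := congrArg Prod.snd h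
  exact Prod.ext (key _ _ (add_left_cancel h1)) (key _ _ (add_left_cancel h2))

theorem prod_split {X V : Type} [Fintype X] [Fintype V] [DecidableEq V] (f : X → V)
    (hf : Function.Injective f) (F : V → ℂ) :
    ∏ v, F v = (∏ x, F (f x)) * ∏ v ∈ (univ.image f)ᶜ, F v := by
  rw [← Finset.prod_mul_prod_compl (univ.image f) F, Finset.prod_image (fun x _ y _ h => hf h)]

theorem loc_in {d n L : ℕ} [NeZero L] (hn : n ≤ L) (u : Site L) (p q : Fin n × Fin n → Fin d)
    (x : Fin n × Fin n) (a b : Fin d) :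
    loc u p q (sh u x) a b = if a = p x ∧ b = q x then 1 else 0 := by
  classical
  unfold loc
  by_cases h : a = p x ∧ b = q x
  · rw [if_pos h, if_pos]
    refine ⟨fun y hy => ?_, fun hy => absurd rfl (hy x)⟩
    rw [sh_inj hn u hy]
    exact h
  · rw [if_neg h, if_neg]
    intro hh
    exact h (hh.1 x rfl)

theorem conj_loc {d n L : ℕ} [NeZero L] (hn : n ≤ L) (u : Site L) (p q : Fin n × Fin n → Fin d)
    (x : Fin n × Fin n) (A B : Matrix (Fin d) (Fin d) ℂ) (a b : Fin d) :
    (A * loc u p q (sh u x) * B) a b = A a (p x) * B (q x) b := by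
  rw [Matrix.mul_apply, Finset.sum_eq_single (q x)]
  · rw [Matrix.mul_apply, Finset.sum_eq_single (p x)]
    · rw [loc_in hn, if_pos ⟨rfl, rfl⟩, mul_one]
    · intro c _ hc
      rw [loc_in hn, if_neg (fun h => hc h.1), mul_zero]
    · intro h
      exact absurd (mem_univ _) h
  · intro c _ hc
    rw [Matrix.mul_apply, Finset.sum_eq_zero, zero_mul]
    intro e _
    rw [loc_in hn, if_neg (fun h => hc h.2), mul_zero]
  · intro h
    exact absurd (mem_univ _) h

theorem conj_term {d n L : ℕ} [NeZero L] (hn : n ≤ L) (W : Matrix (Fin d) (Fin d) ℂ)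
    (hW : W * W.conjTranspose = 1) (h : BoxOp d n) (u : Site L) :
    tpw W * term h u * tpw W.conjTranspose =
      term (tpw W * h * tpw W.conjTranspose : BoxOp d n) u := by
  classical
  have hsum : tpw W * term h u * tpw W.conjTranspose =
      ∑ pq : (Fin n × Fin n → Fin d) × (Fin n × Fin n → Fin d),
        h pq.1 pq.2 • tp (fun v => W * loc u pq.1 pq.2 v * W.conjTranspose) := by
    rw [term_eq, Matrix.mul_sum, Matrix.sum_mul]
    refine Finset.sum_congr rfl (fun pq _ => ?_)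
    rw [Matrix.mul_smul, Matrix.smul_mul, tpw_tp, tpw_tp, tp_mul, tp_mul]
  rw [hsum]
  ext s t
  rw [Matrix.sum_apply]
  have hfac : ∀ p q : Fin n × Fin n → Fin d,
      tp (fun v => W * loc u p q v * W.conjTranspose) s t =
        ((∏ x, W (s (sh u x)) (p x)) * ∏ x, W.conjTranspose (q x) (t (sh u x))) *
          ∏ v ∈ (univ.image (sh u : Fin n × Fin n → Site L))ᶜ, (if s v = t v then (1 : ℂ) else 0) := by
    intro p q
    show ∏ v, (W * loc u p q v * W.conjTranspose) (s v) (t v) = _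
    rw [prod_split (sh u : Fin n × Fin n → Site L) (sh_inj hn u), ← Finset.prod_mul_distrib]
    refine congrArg₂ _ (Finset.prod_congr rfl (fun x _ => conj_loc hn u p q x _ _ _ _))
      (Finset.prod_congr rfl (fun v hv => ?_))
    have hv' : ∀ x : Fin n × Fin n, sh u x ≠ v := by
      intro x hx
      rw [Finset.mem_compl] at hv
      exact hv (Finset.mem_image.2 ⟨x, mem_univ _, hx⟩)
    rw [loc_out u p q v hv', Matrix.mul_one, hW, Matrix.one_apply]
  have hentry : (tpw W * h * tpw W.conjTranspose : BoxOp d n) (fun x => s (sh u x)) (fun x => t (sh u x)) =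
      ∑ pq : (Fin n × Fin n → Fin d) × (Fin n × Fin n → Fin d),
        h pq.1 pq.2 * ((∏ x, W (s (sh u x)) (pq.1 x)) * ∏ x, W.conjTranspose (pq.2 x) (t (sh u x))) := by
    rw [Fintype.sum_prod_type_right, Matrix.mul_apply]
    refine Finset.sum_congr rfl (fun q _ => ?_)
    rw [Matrix.mul_apply, Finset.sum_mul]
    refine Finset.sum_congr rfl (fun p _ => ?_)
    show (∏ x, W (s (sh u x)) (p x)) * h p q * (∏ x, W.conjTranspose (q x) (t (sh u x))) = _
    ring
  unfold term
  by_cases hc : ∀ v, (∀ x : Fin n × Fin n, sh u x ≠ v) → s v = t v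
  · rw [if_pos hc, hentry]
    refine Finset.sum_congr rfl (fun pq _ => ?_)
    have h0 : ∏ v ∈ (univ.image (sh u : Fin n × Fin n → Site L))ᶜ, (if s v = t v then (1 : ℂ) else 0) = 1 := by
      apply Finset.prod_eq_one
      intro v hv
      rw [if_pos]
      apply hc v
      intro x hx
      rw [Finset.mem_compl] at hv
      exact hv (Finset.mem_image.2 ⟨x, mem_univ _, hx⟩)
    rw [Matrix.smul_apply, hfac, smul_eq_mul, h0, mul_one]
  · rw [if_neg hc]
    push Not at hc
    obtain ⟨v, hv, hne⟩ := hc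
    refine Finset.sum_eq_zero (fun pq _ => ?_)
    rw [Matrix.smul_apply, hfac, smul_eq_mul]
    have h0 : ∏ v ∈ (univ.image (sh u : Fin n × Fin n → Site L))ᶜ, (if s v = t v then (1 : ℂ) else 0) = 0 := by
      apply Finset.prod_eq_zero (i := v)
      · rw [Finset.mem_compl, Finset.mem_image]
        rintro ⟨x, _, hx⟩
        exact hv x hx
      · rw [if_neg hne]
    rw [h0, mul_zero, mul_zero]

theorem nsq {S : Type} [Fintype S] (ψ : S → ℂ) : ((normSq ψ : ℝ) : ℂ) = star ψ ⬝ᵥ ψ := by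
  unfold normSq dotProduct
  rw [Complex.ofReal_sum]
  refine Finset.sum_congr rfl (fun s _ => ?_)
  rw [Pi.star_apply, ← starRingEnd_apply, Complex.ofReal_pow, Complex.conj_mul']

theorem nsq_unitary {S : Type} [Fintype S] [DecidableEq S] (U : Matrix S S ℂ)
    (hU : U.conjTranspose * U = 1) (φ : S → ℂ) : normSq (U.mulVec φ) = normSq φ := by
  have h : ((normSq (U.mulVec φ) : ℝ) : ℂ) = ((normSq φ : ℝ) : ℂ) := by
    rw [nsq, nsq, Matrix.star_mulVec, Matrix.dotProduct_mulVec, Matrix.vecMul_vecMul, hU,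
      Matrix.vecMul_one]
  exact_mod_cast h

theorem peps {d L D : ℕ} [NeZero L] (W : Matrix (Fin d) (Fin d) ℂ) (φ : (Site L → Fin d) → ℂ)
    (h : IsPEPS D φ) : IsPEPS D ((tpw W).mulVec φ) := by
  obtain ⟨A, hA⟩ := h
  refine ⟨fun x s a b c e => ∑ t : Fin d, W s t * A x t a b c e, ?_⟩
  funext s
  rw [hA]
  show ∑ t : Site L → Fin d, (∏ v, W (s v) (t v)) * contract A t = _
  unfold contract
  have h1 : ∀ (hh v : Site L → Fin D), ∏ x : Site L, ∑ t : Fin d, W (s x) t *
      A x t (hh (x.1 - 1, x.2)) (hh x) (v (x.1, x.2 - 1)) (v x) =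
      ∑ t : Site L → Fin d, (∏ x, W (s x) (t x)) *
        ∏ x, A x (t x) (hh (x.1 - 1, x.2)) (hh x) (v (x.1, x.2 - 1)) (v x) := by
    intro hh v
    rw [Finset.prod_univ_sum, Fintype.piFinset_univ]
    exact Finset.sum_congr rfl (fun t _ => Finset.prod_mul_distrib)
  simp only [h1, Finset.mul_sum]
  rw [Finset.sum_comm]
  refine Finset.sum_congr rfl (fun hh _ => ?_)
  rw [Finset.sum_comm]

theorem site1_tp {d n : ℕ} (a : Matrix (Fin d) (Fin d) ℂ) :
    (site1 a n : BoxOp d n) = tp (fun x : Fin n × Fin n =>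
      if (x.1 : ℕ) = 0 ∧ (x.2 : ℕ) = 0 then a else 1) := by
  ext p q
  unfold site1 tp
  refine Finset.prod_congr rfl (fun x _ => ?_)
  show _ = (if (x.1 : ℕ) = 0 ∧ (x.2 : ℕ) = 0 then a else 1) (p x) (q x)
  by_cases h : (x.1 : ℕ) = 0 ∧ (x.2 : ℕ) = 0
  · rw [if_pos h, if_pos h]
  · rw [if_neg h, if_neg h, Matrix.one_apply]

theorem conj_site {d n : ℕ} (W a : Matrix (Fin d) (Fin d) ℂ) (hW : W * W.conjTranspose = 1) :
    tpw W * site1 a n * tpw W.conjTranspose = (site1 (W * a * W.conjTranspose) n : BoxOp d n) := by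
  rw [site1_tp, site1_tp, tpw_tp, tpw_tp, tp_mul, tp_mul]
  refine congrArg _ (funext (fun x => ?_))
  by_cases h : (x.1 : ℕ) = 0 ∧ (x.2 : ℕ) = 0
  · rw [if_pos h, if_pos h]
  · rw [if_neg h, if_neg h, Matrix.mul_one, hW]

theorem main : UniS := by
  intro d W hW hW'
  refine ⟨?_, ?_, ?_, ?_⟩
  · intro n L _ h hn
    unfold ham
    rw [Matrix.mul_sum, Matrix.sum_mul]
    exact Finset.sum_congr rfl (fun u _ => conj_term hn W hW h u)
  · intro V _ _
    have hct : (tpw W : Matrix (V → Fin d) (V → Fin d) ℂ).conjTranspose = tpw W.conjTranspose := by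
      ext s t
      rw [Matrix.conjTranspose_apply]
      show star (∏ v, W (t v) (s v)) = ∏ v, W.conjTranspose (s v) (t v)
      rw [← starRingEnd_apply, map_prod]
      rfl
    have h1 : (tpw W.conjTranspose * tpw W : Matrix (V → Fin d) (V → Fin d) ℂ) = 1 := by
      rw [tpw_tp, tpw_tp, tp_mul, hW']
      exact tp_one
    have h2 : (tpw W * tpw W.conjTranspose : Matrix (V → Fin d) (V → Fin d) ℂ) = 1 := by
      rw [tpw_tp, tpw_tp, tp_mul, hW]
      exact tp_one
    refine ⟨h1, h2, ?_, hct, ?_⟩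
    · intro φ
      apply nsq_unitary
      rw [hct]
      exact h1
    · intro s t
      show ‖∏ v, W (s v) (t v)‖ ≤ 1
      rw [norm_prod]
      apply Finset.prod_le_one (fun v _ => norm_nonneg _)
      intro v _
      have hU : W ∈ Matrix.unitaryGroup (Fin d) ℂ := Matrix.mem_unitaryGroup_iff.2 hW
      exact entry_norm_bound_of_unitary hU (s v) (t v)
  · intro L D _ φ h
    exact peps W φ h
  · intro n a _
    exact conj_site W a hW

end Pool.Agent.Q150.KG.UN
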